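import Pool.Agent.Lib.H8.Ter3

set_option maxHeartbeats 400000

namespace Pool.Agent.Results.MP_26251e_nt.Q2No
open PowerSeries Pool.Agent.Lib.H8.Ter3

/-- The power series 1/(1 - x^e) over the integers (e ≥ 1). -/
noncomputable def geo (e : ℕ) : ℤ⟦X⟧ := invOfUnit (1 - X ^ e) 1

/-- d_m(n) for the prime p: coefficient of x^n in (1-x)^{-m} ∏_j (1-x^{p^j})^{-(p-1)m}; the
factors with j > n are 1 modulo x^{n+1}, so they are left out. -/
noncomputable def d (p m n : ℕ) : ℤ :=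
  coeff n (geo 1 ^ m * ∏ j ∈ Finset.range (n + 1), geo (p ^ j) ^ ((p - 1) * m))

/-- ν_p(d_m(p²n) - d_m(n)), with value ∞ at 0. -/
noncomputable def v (p m n : ℕ) : ℕ∞ := emultiplicity (p : ℤ) (d p m (p ^ 2 * n) - d p m n)

/-- ν_p(n) + 4 - [p = 3]. -/
noncomputable def bound (p n : ℕ) : ℕ := padicValNat p n + (if p = 3 then 3 else 4)

/-- The statement Q2. -/
def Q2 : Prop := ∀ p m : ℕ, p.Prime → 3 ≤ p → 1 ≤ m → m % p = p - 1 →
  (∀ n, 1 ≤ n → (bound p n : ℕ∞) ≤ v p m n) ∧ {n | 1 ≤ n ∧ v p m n = bound p n}.Infinite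

lemma m8 (n : ℕ) : ((padicValNat 3 n + 4 : ℕ) : ℕ∞) ≤ v 3 8 n := by
  obtain ⟨q, hq⟩ : 3 ^ padicValNat 3 n ∣ n := pow_padicValNat_dvd
  generalize padicValNat 3 n = j at hq ⊢
  subst hq
  obtain ⟨F, hF, hS⟩ := exF 8
  have h1 : ∀ n, d 3 8 n = coeff n F := hS
  rw [v, h1, h1, add_comm]
  exact le_emultiplicity_of_pow_dvd (div8 F hF j q)

theorem result : ¬ Q2 ∧ ∀ n, 1 ≤ n → ((padicValNat 3 n + 4 : ℕ) : ℕ∞) ≤ v 3 8 n := by
  refine ⟨fun h => ?_, fun n _ => m8 n⟩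
  obtain ⟨n, hn, h1⟩ := (h 3 8 Nat.prime_three le_rfl (by norm_num) (by norm_num)).2.nonempty
  have h2 := m8 n
  rw [h1] at h2
  have : padicValNat 3 n + 4 ≤ bound 3 n := by exact_mod_cast h2
  simp [bound] at this

end Pool.Agent.Results.MP_26251e_nt.Q2No
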